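import Mathlib
import Pool.Agent.Lib.UP.U14
import Pool.Agent.Lib.UP.U1

/-!
# T4, surface groups: the functor `ES R p W = Ext^p(W, R)` (left modules by the involution)

Functoriality, the connecting homomorphism and its naturality, the long exact sequence, finite
direct sums, isomorphisms, the comparison with the condition `GE` (helper81).
-/

set_option autoImplicit false
set_option linter.unusedSectionVars false

open CategoryTheory CategoryTheory.Abelian MulOpposite

namespace Pool.Agent.UP

universe u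

section ES

variable {R : Type u} [Ring R] [StarRing R] {p : ℕ}

theorem ES.smul_def {W : Type u} [AddCommGroup W] [Module R W] (r : R) (x : ES R p W) :
    r • x = (show ES R p W from (op (star r) • (show Pool.UP.EP R p W from x))) := rfl

/-- a map of right modules as a map of left modules -/
noncomputable def ES.ofR {W W' : Type u} [AddCommGroup W] [Module R W] [AddCommGroup W'] [Module R W']
    {p q : ℕ} (f : Pool.UP.EP R p W →ₗ[Rᵐᵒᵖ] Pool.UP.EP R q W') : ES R p W →ₗ[R] ES R q W' where
  toFun x := f x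
  map_add' x y := f.map_add x y
  map_smul' r x := f.map_smul (op (star r)) x

variable {W W' W'' : Type u} [AddCommGroup W] [Module R W] [AddCommGroup W'] [Module R W']
  [AddCommGroup W''] [Module R W'']

/-- functoriality -/
noncomputable def ES.map (p : ℕ) (f : W →ₗ[R] W') : ES R p W' →ₗ[R] ES R p W :=
  ES.ofR (Pool.UP.EP.map p f)

theorem ES.map_comp (f : W →ₗ[R] W') (g : W' →ₗ[R] W'') (x : ES R p W'') :
    ES.map p (g ∘ₗ f) x = ES.map p f (ES.map p g x) := Pool.UP.EP.map_comp f g x

theorem ES.map_id (x : ES R p W) : ES.map p LinearMap.id x = x := Pool.UP.EP.map_id x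

theorem ES.map_add (f g : W →ₗ[R] W') (x : ES R p W') :
    ES.map p (f + g) x = ES.map p f x + ES.map p g x := Pool.UP.EP.map_add f g x

theorem ES.map_zero (x : ES R p W') : ES.map p (0 : W →ₗ[R] W') x = 0 := Pool.UP.EP.map_zero x

theorem ES.map_neg (f : W →ₗ[R] W') (x : ES R p W') : ES.map p (-f) x = -ES.map p f x := by
  rw [eq_neg_iff_add_eq_zero, ← ES.map_add, neg_add_cancel, ES.map_zero]

theorem ES.map_sub (f g : W →ₗ[R] W') (x : ES R p W') :
    ES.map p (f - g) x = ES.map p f x - ES.map p g x := by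
  rw [sub_eq_add_neg, ES.map_add, ES.map_neg, ← sub_eq_add_neg]

theorem ES.map_sum {ι : Type*} (s : Finset ι) (f : ι → (W →ₗ[R] W')) (x : ES R p W') :
    ES.map p (∑ i ∈ s, f i) x = ∑ i ∈ s, ES.map p (f i) x := by
  classical
  induction s using Finset.induction_on with
  | empty => rw [Finset.sum_empty, Finset.sum_empty, ES.map_zero]
  | insert a s ha ih => rw [Finset.sum_insert ha, Finset.sum_insert ha, ES.map_add, ih]

theorem ES.map_comp' (f : W →ₗ[R] W') (g : W' →ₗ[R] W'') :
    ES.map p (g ∘ₗ f) = ES.map p f ∘ₗ ES.map p g := LinearMap.ext fun x => ES.map_comp f g x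

/-- an isomorphism of modules -/
noncomputable def ES.congr (p : ℕ) (e : W ≃ₗ[R] W') : ES R p W' ≃ₗ[R] ES R p W :=
  LinearEquiv.ofLinearMap (ES.map p (e : W →ₗ[R] W')) (ES.map p (e.symm : W' →ₗ[R] W))
    (by
      rw [← ES.map_comp', show ((e.symm : W' →ₗ[R] W) ∘ₗ (e : W →ₗ[R] W')) = LinearMap.id from
        LinearMap.ext fun x => e.symm_apply_apply x]
      exact LinearMap.ext fun x => ES.map_id x)
    (by
      rw [← ES.map_comp', show ((e : W →ₗ[R] W') ∘ₗ (e.symm : W' →ₗ[R] W)) = LinearMap.id from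
        LinearMap.ext fun x => e.apply_symm_apply x]
      exact LinearMap.ext fun x => ES.map_id x)

theorem ES.congr_apply (e : W ≃ₗ[R] W') (x : ES R p W') :
    ES.congr p e x = ES.map p (e : W →ₗ[R] W') x := rfl

theorem ES.congr_symm_apply (e : W ≃ₗ[R] W') (x : ES R p W) :
    (ES.congr p e).symm x = ES.map p (e.symm : W' →ₗ[R] W) x := rfl

/-- a map with a left inverse induces a surjection -/
theorem ES.map_surjective_of_inv (f : W →ₗ[R] W') (g : W' →ₗ[R] W)
    (h : g ∘ₗ f = LinearMap.id) : Function.Surjective (ES.map p f) := by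
  intro x
  exact ⟨ES.map p g x, by rw [← ES.map_comp, h, ES.map_id]⟩

/-- a map with a right inverse induces an injection -/
theorem ES.map_injective_of_inv (f : W →ₗ[R] W') (g : W' →ₗ[R] W)
    (h : f ∘ₗ g = LinearMap.id) : Function.Injective (ES.map p f) := by
  intro x y hxy
  have h1 := congrArg (ES.map p g) hxy
  rwa [← ES.map_comp, ← ES.map_comp, h, ES.map_id, ES.map_id] at h1

end ES

/-! ### the long exact sequence -/

section les

variable {R : Type u} [Ring R] [StarRing R] {N K Q : Type u} [AddCommGroup N] [Module R N]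
  [AddCommGroup K] [Module R K] [AddCommGroup Q] [Module R Q]

/-- the connecting homomorphism -/
noncomputable def ES.delta (l : ℕ) (f : N →ₗ[R] K) (g : K →ₗ[R] Q) (hf : Function.Injective f)
    (hg : Function.Surjective g) (h : Function.Exact f g) : ES R l N →ₗ[R] ES R (l + 1) Q :=
  ES.ofR (Pool.UP.EP.delta l f g hf hg h)

variable (f : N →ₗ[R] K) (g : K →ₗ[R] Q) (hf : Function.Injective f)
    (hg : Function.Surjective g) (h : Function.Exact f g)

include hf hg h in
theorem ES.exact_mid (l : ℕ) : Function.Exact (ES.map l g) (ES.map l f) :=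
  Pool.UP.EP.exact_mid f g hf hg h l

theorem ES.exact_left (l : ℕ) : Function.Exact (ES.map l f) (ES.delta l f g hf hg h) :=
  Pool.UP.EP.exact_left f g hf hg h l

theorem ES.exact_right (l : ℕ) : Function.Exact (ES.delta l f g hf hg h) (ES.map (l + 1) g) :=
  Pool.UP.EP.exact_right f g hf hg h l

include hg in
theorem ES.map_zero_injective : Function.Injective (ES.map 0 g) :=
  Pool.UP.EP.map_zero_injective g hg

theorem ES.delta_map (l : ℕ) (x : ES R l K) : ES.delta l f g hf hg h (ES.map l f x) = 0 :=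
  (ES.exact_left f g hf hg h l _).mpr ⟨x, rfl⟩

theorem ES.map_delta (l : ℕ) (x : ES R l N) :
    ES.map (l + 1) g (ES.delta l f g hf hg h x) = 0 :=
  (ES.exact_right f g hf hg h l _).mpr ⟨x, rfl⟩

include hf hg h in
/-- `Ext^l(Q) = 0` gives injectivity of the restriction -/
theorem ES.map_injective (l : ℕ) (hQ : Subsingleton (ES R l Q)) :
    Function.Injective (ES.map l f) := by
  rw [injective_iff_map_eq_zero]
  intro x hx
  obtain ⟨y, rfl⟩ := (ES.exact_mid f g hf hg h l x).mp hx
  rw [Subsingleton.elim y 0, LinearMap.map_zero]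

include hf hg h in
/-- `Ext^(l+1)(Q) = 0` gives surjectivity of the restriction -/
theorem ES.map_surjective (l : ℕ) (hQ : Subsingleton (ES R (l + 1) Q)) :
    Function.Surjective (ES.map l f) := fun x =>
  (ES.exact_left f g hf hg h l x).mp (Subsingleton.elim _ _)

/-- naturality of the connecting homomorphism -/
theorem ES.delta_nat {N' K' Q' : Type u} [AddCommGroup N'] [Module R N'] [AddCommGroup K']
    [Module R K'] [AddCommGroup Q'] [Module R Q'] (f' : N' →ₗ[R] K') (g' : K' →ₗ[R] Q')
    (hf' : Function.Injective f') (hg' : Function.Surjective g') (h' : Function.Exact f' g')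
    (a : N →ₗ[R] N') (b : K →ₗ[R] K') (c : Q →ₗ[R] Q') (hab : b ∘ₗ f = f' ∘ₗ a)
    (hbc : c ∘ₗ g = g' ∘ₗ b) (l : ℕ) (x : ES R l N') :
    ES.map (l + 1) c (ES.delta l f' g' hf' hg' h' x) = ES.delta l f g hf hg h (ES.map l a x) := by
  have hS := Pool.UP.sesOf' f g hf hg h
  have hS' := Pool.UP.sesOf' f' g' hf' hg' h'
  have key := ShortComplex.ShortExact.extClass_naturality hS hS'
    { τ₁ := ModuleCat.ofHom a
      τ₂ := ModuleCat.ofHom b
      τ₃ := ModuleCat.ofHom c
      comm₁₂ := by
        change ModuleCat.ofHom a ≫ ModuleCat.ofHom f' = ModuleCat.ofHom f ≫ ModuleCat.ofHom b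
        rw [← ModuleCat.ofHom_comp, ← ModuleCat.ofHom_comp, hab]
      comm₂₃ := by
        change ModuleCat.ofHom b ≫ ModuleCat.ofHom g' = ModuleCat.ofHom g ≫ ModuleCat.ofHom c
        rw [← ModuleCat.ofHom_comp, ← ModuleCat.ofHom_comp, hbc] }
  change (Ext.mk₀ (ModuleCat.ofHom c)).comp (hS'.extClass.comp x (add_comm 1 l)) (zero_add _) =
    hS.extClass.comp ((Ext.mk₀ (ModuleCat.ofHom a)).comp x (zero_add l)) (add_comm 1 l)
  have e1 := Ext.comp_assoc (Ext.mk₀ (ModuleCat.ofHom c)) hS'.extClass x (zero_add 1)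
    (add_comm 1 l) (show 0 + 1 + l = l + 1 by omega)
  have e2 := Ext.comp_assoc hS.extClass (Ext.mk₀ (ModuleCat.ofHom a)) x (add_zero 1)
    (zero_add l) (show 1 + 0 + l = l + 1 by omega)
  exact e1.symm.trans ((congrArg (fun z => Ext.comp z x _) key.symm).trans e2)

end les

/-! ### submodules and quotients -/

section sub

variable {R : Type u} [Ring R] [StarRing R] {K Q : Type u} [AddCommGroup K] [Module R K]
  [AddCommGroup Q] [Module R Q]

/-- the connecting homomorphism of a surjection -/
noncomputable def ES.dl (l : ℕ) (g : K →ₗ[R] Q) (hg : Function.Surjective g) :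
    ES R l (LinearMap.ker g) →ₗ[R] ES R (l + 1) Q :=
  ES.delta l (LinearMap.ker g).subtype g (Submodule.subtype_injective _) hg
    (LinearMap.exact_subtype_ker_map g)

theorem ES.dl_exact_left (l : ℕ) (g : K →ₗ[R] Q) (hg : Function.Surjective g) :
    Function.Exact (ES.map l (LinearMap.ker g).subtype) (ES.dl l g hg) :=
  ES.exact_left _ _ _ _ _ l

theorem ES.dl_exact_right (l : ℕ) (g : K →ₗ[R] Q) (hg : Function.Surjective g) :
    Function.Exact (ES.dl l g hg) (ES.map (l + 1) g) := ES.exact_right _ _ _ _ _ l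

theorem ES.dl_nat {K' Q' : Type u} [AddCommGroup K'] [Module R K'] [AddCommGroup Q']
    [Module R Q'] (g : K →ₗ[R] Q) (hg : Function.Surjective g) (g' : K' →ₗ[R] Q')
    (hg' : Function.Surjective g') (b : K →ₗ[R] K') (c : Q →ₗ[R] Q') (hbc : c ∘ₗ g = g' ∘ₗ b)
    (a : LinearMap.ker g →ₗ[R] LinearMap.ker g') (ha : ∀ x, (a x : K') = b x) (l : ℕ)
    (x : ES R l (LinearMap.ker g')) :
    ES.map (l + 1) c (ES.dl l g' hg' x) = ES.dl l g hg (ES.map l a x) :=
  ES.delta_nat _ _ _ _ _ _ _ _ _ _ a b c (LinearMap.ext fun y => (ha y).symm) hbc l x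

end sub

/-! ### vanishing -/

section van

variable {R : Type u} [Ring R] [StarRing R] {M : Type u} [AddCommGroup M] [Module R M]

theorem ES.subsingleton_iff (l : ℕ) : Subsingleton (ES R l M) ↔
    Subsingleton (Ext.{u} (ModuleCat.of R M) (ModuleCat.of R R) l) := Iff.rfl

theorem ge_iff_es (p : ℕ) : GE R p M ↔ ∀ l < p, Subsingleton (ES R l M) := Iff.rfl

theorem Loc.es {p l : ℕ} (h : Loc R p M) (hl : l < p) (N : Submodule R M) (hN : N.FG) :
    Subsingleton (ES R l N) := h N hN l hl

theorem Loc.es_of_fg {p l : ℕ} [Module.Finite R M] (h : Loc R p M) (hl : l < p) :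
    Subsingleton (ES R l M) := Loc.ge h l hl

theorem ES.subsingleton_congr {N : Type u} [AddCommGroup N] [Module R N] (e : M ≃ₗ[R] N)
    (l : ℕ) (h : Subsingleton (ES R l M)) : Subsingleton (ES R l N) :=
  (ES.congr l e).injective.subsingleton

theorem ES.subsingleton_of_subsingleton [Subsingleton M] (l : ℕ) : Subsingleton (ES R l M) := by
  refine ⟨fun a b => ?_⟩
  have h0 : (LinearMap.id : M →ₗ[R] M) = 0 := LinearMap.ext fun x => Subsingleton.elim _ _
  have h1 : ∀ x : ES R l M, x = 0 := fun x => by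
    rw [← ES.map_id x, h0, ES.map_zero]
  rw [h1 a, h1 b]

end van

/-! ### finite direct sums -/

section sum

variable {R : Type u} [Ring R] [StarRing R] {n : ℕ} {M : Fin n → Type u}
  [∀ i, AddCommGroup (M i)] [∀ i, Module R (M i)] (p : ℕ)

/-- every element of `Ext^p` of a finite product is the sum of its components -/
theorem ES.sum_pi (x : ES R p (∀ i, M i)) :
    x = ∑ i, ES.map p (LinearMap.proj i) (ES.map p (LinearMap.single R M i) x) := by
  classical
  have h : (LinearMap.id : (∀ i, M i) →ₗ[R] ∀ i, M i) =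
      ∑ i, (LinearMap.single R M i) ∘ₗ (LinearMap.proj i) := by
    refine LinearMap.ext fun y => ?_
    rw [LinearMap.sum_apply]
    change y = ∑ i, Pi.single i (y i)
    exact (Finset.univ_sum_single y).symm
  conv_lhs => rw [← ES.map_id x, h, ES.map_sum]
  exact Finset.sum_congr rfl fun i _ => ES.map_comp _ _ _

theorem ES.single_proj_same (i : Fin n) (x : ES R p (M i)) :
    ES.map p (LinearMap.single R M i) (ES.map p (LinearMap.proj i) x) = x := by
  rw [← ES.map_comp, LinearMap.proj_comp_single_same, ES.map_id]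

theorem ES.single_proj_ne {i j : Fin n} (h : i ≠ j) (x : ES R p (M i)) :
    ES.map p (LinearMap.single R M j) (ES.map p (LinearMap.proj i) x) = 0 := by
  rw [← ES.map_comp, LinearMap.proj_comp_single_ne R M i j h, ES.map_zero]

/-- `Ext^p` of a binary product -/
theorem ES.sum_prod {A B : Type u} [AddCommGroup A] [Module R A] [AddCommGroup B] [Module R B]
    (x : ES R p (A × B)) :
    x = ES.map p (LinearMap.fst R A B) (ES.map p (LinearMap.inl R A B) x) +
      ES.map p (LinearMap.snd R A B) (ES.map p (LinearMap.inr R A B) x) := by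
  have h : (LinearMap.id : (A × B) →ₗ[R] A × B) =
      (LinearMap.inl R A B) ∘ₗ (LinearMap.fst R A B) +
        (LinearMap.inr R A B) ∘ₗ (LinearMap.snd R A B) := by
    refine LinearMap.ext fun y => ?_
    simp
  conv_lhs => rw [← ES.map_id x, h, ES.map_add, ES.map_comp, ES.map_comp]

end sum

end Pool.Agent.UP
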